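import Pool.Agent.helper5.PR.SpecZ

set_option autoImplicit false

namespace Pool.Agent.PR

open Matrix Module

section

variable {K V : Type} [Field K] [AddCommGroup V] [Module K V] {Q : Type} [Group Q]

/-- elements of the commutator subgroup have determinant one -/
theorem Z_FC_det (ρ : Q →* Module.End K V) (h : Q) (hh : h ∈ commutator Q) :
    LinearMap.det (ρ h) = 1 := by
  set χ : Q →* Kˣ := ((LinearMap.det (M := V) (A := K)).comp ρ).toHomUnits with hχ
  have h1 : h ∈ χ.ker := Abelianization.commutator_subset_ker χ hh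
  rw [MonoidHom.mem_ker] at h1
  have h2 : ((χ h : Kˣ) : K) = LinearMap.det (ρ h) := rfl
  rw [← h2, h1, Units.val_one]

/-- the roots of unity of order dividing `n` -/
theorem Z_FC_roots (n : ℕ) (hn : 0 < n) : {c : K | c ^ n = 1}.Finite := by
  classical
  have h := (Polynomial.nthRoots n (1 : K)).toFinset.finite_toSet
  refine h.subset ?_
  intro c hc
  rw [Finset.mem_coe, Multiset.mem_toFinset, Polynomial.mem_nthRoots hn]
  exact hc

theorem Z_FC_fin [FiniteDimensional K V] [Nontrivial V] (ρ : Q →* Module.End K V) (H : Subgroup Q)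
    (h1 : H ≤ commutator Q) (h2 : H.relIndex (commutator Q) ≠ 0)
    (h3 : ∀ h ∈ H, ∃ c : K, ρ h = c • (1 : Module.End K V)) :
    (ρ '' (commutator Q : Set Q)).Finite := by
  have hn : 0 < finrank K V := finrank_pos
  have hfq : Finite (commutator Q ⧸ H.subgroupOf (commutator Q)) := by
    have : (H.subgroupOf (commutator Q)).FiniteIndex := ⟨h2⟩
    infer_instance
  have hA : ({c : K | c ^ finrank K V = 1}).Finite := Z_FC_roots _ hn
  set F : K × (commutator Q ⧸ H.subgroupOf (commutator Q)) → Module.End K V :=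
    fun p => p.1 • ρ ((p.2.out : commutator Q) : Q) with hF
  have hfin : (F '' ({c : K | c ^ finrank K V = 1} ×ˢ Set.univ)).Finite :=
    (hA.prod Set.finite_univ).image F
  refine hfin.subset ?_
  rintro _ ⟨δ, hδ, rfl⟩
  set q : commutator Q ⧸ H.subgroupOf (commutator Q) :=
    ((⟨δ, hδ⟩ : commutator Q) : commutator Q ⧸ H.subgroupOf (commutator Q)) with hq
  have hout : ((q.out : commutator Q) : commutator Q ⧸ H.subgroupOf (commutator Q)) = q :=
    QuotientGroup.out_eq' q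
  rw [hq, QuotientGroup.eq] at hout
  have hH : ((q.out : commutator Q) : Q)⁻¹ * δ ∈ H := hout
  obtain ⟨c, hc⟩ := h3 _ hH
  refine ⟨(c, q), ⟨?_, Set.mem_univ _⟩, ?_⟩
  · change c ^ finrank K V = 1
    have hdet := Z_FC_det ρ _ (h1 hH)
    rw [hc, LinearMap.det_smul, map_one, mul_one] at hdet
    exact hdet
  · simp only [hF]
    have e : δ = ((q.out : commutator Q) : Q) * (((q.out : commutator Q) : Q)⁻¹ * δ) := by group
    rw [e, map_mul, hc, mul_smul_comm, mul_one]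

/-- the elements which commute with `x` in the representation -/
def Z_FC_Cm (ρ : Q →* Module.End K V) (x : Q) : Subgroup Q where
  carrier := {y | ρ x * ρ y = ρ y * ρ x}
  one_mem' := by simp
  mul_mem' := by
    intro a b ha hb
    change ρ x * ρ (a * b) = ρ (a * b) * ρ x
    have ha' : ρ x * ρ a = ρ a * ρ x := ha
    have hb' : ρ x * ρ b = ρ b * ρ x := hb
    rw [map_mul, ← mul_assoc, ha', mul_assoc, hb', mul_assoc]
  inv_mem' := by
    intro a ha
    change ρ x * ρ a⁻¹ = ρ a⁻¹ * ρ x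
    have ha' : ρ x * ρ a = ρ a * ρ x := ha
    have e1 : ρ a⁻¹ * ρ a = 1 := by rw [← map_mul, inv_mul_cancel, map_one]
    have e2 : ρ a * ρ a⁻¹ = 1 := by rw [← map_mul, mul_inv_cancel, map_one]
    calc ρ x * ρ a⁻¹ = (ρ a⁻¹ * ρ a) * (ρ x * ρ a⁻¹) := by rw [e1, one_mul]
      _ = ρ a⁻¹ * ((ρ a * ρ x) * ρ a⁻¹) := by simp only [mul_assoc]
      _ = ρ a⁻¹ * ((ρ x * ρ a) * ρ a⁻¹) := by rw [ha']
      _ = ρ a⁻¹ * ρ x * (ρ a * ρ a⁻¹) := by simp only [mul_assoc]
      _ = ρ a⁻¹ * ρ x := by rw [e2, mul_one]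

theorem Z_FC_Cm_fin [FiniteDimensional K V] [Nontrivial V] (ρ : Q →* Module.End K V)
    (H : Subgroup Q) (h1 : H ≤ commutator Q) (h2 : H.relIndex (commutator Q) ≠ 0)
    (h3 : ∀ h ∈ H, ∃ c : K, ρ h = c • (1 : Module.End K V)) (x : Q) :
    (Z_FC_Cm ρ x).FiniteIndex := by
  have hfin := Z_FC_fin ρ H h1 h2 h3
  set φ : Q → Module.End K V := fun y => ρ (y * x * y⁻¹) with hφ
  have hr : (Set.range φ).Finite := by
    refine (hfin.image (fun A => A * ρ x)).subset ?_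
    rintro _ ⟨y, rfl⟩
    refine ⟨ρ (y * x * y⁻¹ * x⁻¹), ⟨_, ?_, rfl⟩, ?_⟩
    · exact Subgroup.commutator_mem_commutator (Subgroup.mem_top y) (Subgroup.mem_top x)
    · change ρ (y * x * y⁻¹ * x⁻¹) * ρ x = ρ (y * x * y⁻¹)
      rw [← map_mul]
      congr 1
      group
  have hfr : Finite (Set.range φ) := hr
  have hfq : Finite (Q ⧸ Z_FC_Cm ρ x) := by
    refine Finite.of_injective
      (fun q : Q ⧸ Z_FC_Cm ρ x => (⟨φ q.out, Set.mem_range_self _⟩ : Set.range φ)) ?_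
    intro q₁ q₂ hq
    have hq' : φ q₁.out = φ q₂.out := congrArg Subtype.val hq
    rw [← QuotientGroup.out_eq' q₁, ← QuotientGroup.out_eq' q₂, QuotientGroup.eq]
    change ρ x * ρ (q₁.out⁻¹ * q₂.out) = ρ (q₁.out⁻¹ * q₂.out) * ρ x
    have hq'' : ρ (q₁.out * x * q₁.out⁻¹) = ρ (q₂.out * x * q₂.out⁻¹) := hq'
    have e1 : x * (q₁.out⁻¹ * q₂.out) = q₁.out⁻¹ * (q₁.out * x * q₁.out⁻¹) * q₂.out := by group
    have e2 : (q₁.out⁻¹ * q₂.out) * x = q₁.out⁻¹ * (q₂.out * x * q₂.out⁻¹) * q₂.out := by group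
    rw [← map_mul, ← map_mul, e1, e2]
    rw [map_mul, map_mul, hq'', ← map_mul, ← map_mul]
  exact Subgroup.finiteIndex_of_finite_quotient

end

theorem Z_FC : Z_FC_stmt := by
  intro K V _ _ _ _ _ _ Q _ ρ H h1 h2 h3
  set S : Set ℕ := {n | ∃ C₁ : Subgroup Q, C₁.FiniteIndex ∧ ∃ W : Submodule K V, W ≠ ⊥ ∧
    (∀ g ∈ C₁, ∀ w ∈ W, ρ g w ∈ W) ∧ finrank K W = n} with hS
  have hne : S.Nonempty :=
    ⟨finrank K (⊤ : Submodule K V), ⊤, inferInstance, ⊤, top_ne_bot,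
      fun _ _ _ _ => Submodule.mem_top, rfl⟩
  obtain ⟨C₁, hC₁, W, hW, hinv, hfr⟩ := Nat.sInf_mem hne
  have hmin : ∀ n ∈ S, finrank K W ≤ n := by
    intro n hn
    rw [hfr]
    exact Nat.sInf_le hn
  obtain ⟨v, hvW, hv0⟩ := Submodule.exists_mem_ne_zero_of_ne_bot hW
  refine ⟨C₁, hC₁, v, hv0, ?_⟩
  intro x hx
  have hWn : Nontrivial W := ⟨⟨⟨v, hvW⟩, 0, fun h => hv0 (congrArg Subtype.val h)⟩⟩
  set f : Module.End K W := (ρ x).restrict (hinv x hx) with hf
  obtain ⟨c, hc⟩ := Module.End.exists_eigenvalue f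
  obtain ⟨w, hw⟩ := hc.exists_hasEigenvector
  have hw1 : ρ x (w : V) = c • (w : V) := by
    have := hw.apply_eq_smul
    exact congrArg Subtype.val this
  have hw0 : (w : V) ≠ 0 := fun h => hw.2 (Subtype.ext h)
  set W' : Submodule K V := W ⊓ LinearMap.ker (ρ x - c • (1 : Module.End K V)) with hW'
  have hmem : ∀ u, u ∈ W' ↔ u ∈ W ∧ ρ x u = c • u := by
    intro u
    rw [hW', Submodule.mem_inf, LinearMap.mem_ker, LinearMap.sub_apply, LinearMap.smul_apply,
      Module.End.one_apply, sub_eq_zero]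
  have hW'0 : W' ≠ ⊥ := by
    intro h
    have : (w : V) ∈ W' := (hmem _).2 ⟨w.2, hw1⟩
    rw [h, Submodule.mem_bot] at this
    exact hw0 this
  have hCm : (Z_FC_Cm ρ x).FiniteIndex := Z_FC_Cm_fin ρ H h1 h2 h3 x
  have hle := hmin (finrank K W') ⟨C₁ ⊓ Z_FC_Cm ρ x, inferInstance, W', hW'0, ?_, rfl⟩
  · have heq : W' = W := Submodule.eq_of_le_of_finrank_le inf_le_left hle
    have : v ∈ W' := by rw [heq]; exact hvW
    exact ⟨c, ((hmem v).1 this).2⟩
  · rintro g ⟨hg1, hg2⟩ u hu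
    obtain ⟨hu1, hu2⟩ := (hmem u).1 hu
    refine (hmem _).2 ⟨hinv g hg1 u hu1, ?_⟩
    have hcomm : ρ x * ρ g = ρ g * ρ x := hg2
    have e1 : ρ x (ρ g u) = (ρ x * ρ g) u := rfl
    have e2 : (ρ g * ρ x) u = ρ g (ρ x u) := rfl
    rw [e1, hcomm, e2, hu2, map_smul]

end Pool.Agent.PR
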