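import Pool.Agent.helper48.PR.SpecL

/-!
Project pr (MP_a2a22c_al), module LONE: one-sided statement for subgroups of `SL(n, ℤ)`.
-/

set_option autoImplicit false

namespace Pool.Agent.PR

open Matrix

theorem LONE_dvd1 (q : Nat.Primes) (m : ℕ) (z : ℤ) (k : ℕ) (hk : (q : ℕ) ^ k ∣ m)
    (h : (m : ℤ_[(q : ℕ)]) ∣ ((z : ℤ) : ℤ_[(q : ℕ)])) : (q : ℕ) ^ k ∣ z.natAbs := by
  have h2 : (((q : ℕ) : ℤ_[(q : ℕ)])) ^ k ∣ (m : ℤ_[(q : ℕ)]) := by
    obtain ⟨c, hc⟩ := hk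
    exact ⟨(c : ℤ_[(q : ℕ)]), by rw [hc]; push_cast; rfl⟩
  have h3 := h2.trans h
  rw [PadicInt.pow_p_dvd_int_iff] at h3
  have h4 : (((q : ℕ) ^ k : ℕ) : ℤ) ∣ z := by
    rw [Nat.cast_pow]
    exact h3
  exact Int.natCast_dvd.mp h4

theorem LONE_dvd (m : ℕ) (z : ℤ)
    (h : ∀ q : Nat.Primes, (m : ℤ_[(q : ℕ)]) ∣ ((z : ℤ) : ℤ_[(q : ℕ)])) : (m : ℤ) ∣ z := by
  rw [Int.natCast_dvd, Nat.dvd_iff_prime_pow_dvd_dvd]
  intro p k hp hk
  exact LONE_dvd1 ⟨p, hp⟩ m z k hk (h ⟨p, hp⟩)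

/-- the homomorphism `H → GL(n, ℤ_q)` -/
noncomputable def LONE_f {n : ℕ} (H : Subgroup (SLZ n)) (q : Nat.Primes) :
    H →* GL (Fin n) ℤ_[(q : ℕ)] :=
  (Matrix.SpecialLinearGroup.toGL).comp
    ((Matrix.SpecialLinearGroup.map (Int.castRingHom ℤ_[(q : ℕ)])).comp H.subtype)

theorem LONE_f_apply {n : ℕ} (H : Subgroup (SLZ n)) (q : Nat.Primes) (h : H) (i j : Fin n) :
    (LONE_f H q h : Matrix (Fin n) (Fin n) ℤ_[(q : ℕ)]) i j =
      ((((h : SLZ n) : Matrix (Fin n) (Fin n) ℤ) i j : ℤ) : ℤ_[(q : ℕ)]) := rfl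

theorem LONE_f_inf {n : ℕ} (H : Subgroup (SLZ n)) [Infinite H] (q : Nat.Primes) :
    (Set.range (LONE_f H q)).Infinite := by
  apply Set.infinite_range_of_injective
  intro g h hgh
  apply Subtype.ext
  apply Matrix.SpecialLinearGroup.ext
  intro i j
  have h1 := LONE_f_apply H q g i j
  rw [hgh, LONE_f_apply] at h1
  exact (Int.cast_injective h1).symm

/-- Module LONE. -/
theorem LONE (hkey : LKEY_stmt) (hpd : LPD_stmt) (hcsp : LCSP_stmt) : LONE_stmt := by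
  intro n hn H hinf hQ
  have hf : ∀ q, (Set.range (LONE_f H q)).Infinite := fun q => LONE_f_inf H q
  constructor
  · apply hpd n hn H
    intro m hm γ
    obtain ⟨l, hl⟩ := hkey n hn H hQ (LONE_f H) hf (fun q => stdM ℤ_[(q : ℕ)] γ)
      (fun q => det_stdM _ γ) m hm
    refine ⟨l, l.2, fun i j => ?_⟩
    apply LONE_dvd
    intro q
    have h1 := hl q i j
    rw [LONE_f_apply] at h1
    rw [Int.cast_sub]
    exact h1
  · intro K hK
    obtain ⟨m, hm, h⟩ := hcsp n hn H hQ (H ⧸ K.normalCore) (QuotientGroup.mk' K.normalCore)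
      (LONE_f H) hf
    refine ⟨m, hm, fun h' hh => ?_⟩
    have h1 : QuotientGroup.mk' K.normalCore h' = 1 := by
      apply h
      intro q i j
      obtain ⟨c, hc⟩ := hh i j
      refine ⟨((c : ℤ) : ℤ_[(q : ℕ)]), ?_⟩
      rw [LONE_f_apply]
      have h2 := congrArg (fun z : ℤ => ((z : ℤ) : ℤ_[(q : ℕ)])) hc
      simp only [Int.cast_sub, Int.cast_mul, Int.cast_natCast] at h2
      rw [← h2]
      congr 1
      rw [Matrix.one_apply, Matrix.one_apply]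
      split_ifs <;> simp
    have h2 : h' ∈ K.normalCore := (QuotientGroup.eq_one_iff h').mp h1
    exact Subgroup.normalCore_le K h2

end Pool.Agent.PR
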