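import Pool.Agent.helper5.PR.SpecK

/-!
Project pr (MP_a2a22c_al), module K-EXT: extension of embeddings.
-/

set_option autoImplicit false

namespace Pool.Agent.PR

/-- Extension over a field `K`. -/
theorem K_EXT_aux (K E Ω : Type) [Field K] [Field E] [Field Ω] [Algebra K E] [Algebra K Ω]
    [IsAlgClosed Ω] (d : ℕ) (u : Fin d → E) (hu : IsTranscendenceBasis K u) (b : Fin d → Ω)
    (hb : AlgebraicIndependent K b) : ∃ σ : E →ₐ[K] Ω, ∀ i, σ (u i) = b i := by
  have halg : Algebra.IsAlgebraic (Algebra.adjoin K (Set.range u)) E := hu.isAlgebraic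
  let g : Algebra.adjoin K (Set.range u) →ₐ[K] Ω :=
    (MvPolynomial.aeval b).comp hu.1.aevalEquiv.symm.toAlgHom
  have hg : Function.Injective g := by
    intro x y hxy
    have h1 : MvPolynomial.aeval b (hu.1.aevalEquiv.symm x) =
        MvPolynomial.aeval b (hu.1.aevalEquiv.symm y) := hxy
    exact hu.1.aevalEquiv.symm.injective (hb h1)
  letI : Algebra (Algebra.adjoin K (Set.range u)) Ω := g.toRingHom.toAlgebra
  have hst : IsScalarTower K (Algebra.adjoin K (Set.range u)) Ω :=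
    IsScalarTower.of_algebraMap_eq' g.comp_algebraMap.symm
  have htf : Module.IsTorsionFree (Algebra.adjoin K (Set.range u)) Ω :=
    Module.isTorsionFree_iff_algebraMap_injective.mpr hg
  let σ : E →ₐ[Algebra.adjoin K (Set.range u)] Ω := IsAlgClosed.lift
  refine ⟨σ.restrictScalars K, fun i => ?_⟩
  have h1 : σ (algebraMap (Algebra.adjoin K (Set.range u)) E
      ⟨u i, Algebra.subset_adjoin ⟨i, rfl⟩⟩) = g ⟨u i, Algebra.subset_adjoin ⟨i, rfl⟩⟩ :=
    σ.commutes _
  have h2 : g ⟨u i, Algebra.subset_adjoin ⟨i, rfl⟩⟩ = b i := by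
    have h3 : hu.1.aevalEquiv (MvPolynomial.X i) = ⟨u i, Algebra.subset_adjoin ⟨i, rfl⟩⟩ := by
      apply Subtype.ext
      simp
    have h4 : hu.1.aevalEquiv.symm ⟨u i, Algebra.subset_adjoin ⟨i, rfl⟩⟩ = MvPolynomial.X i := by
      rw [← h3, AlgEquiv.symm_apply_apply]
    change MvPolynomial.aeval b (hu.1.aevalEquiv.symm ⟨u i, Algebra.subset_adjoin ⟨i, rfl⟩⟩) = b i
    rw [h4, MvPolynomial.aeval_X]
  exact h1.trans h2

/-- Module K-EXT. -/
theorem K_EXT : K_EXT_stmt := by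
  intro E _ _ d u hu Ω _ _ _ b hb c hc γ hγ
  have hci : IsIntegral ℚ c := hc.isIntegral
  have hroot : γ ∈ (minpoly ℚ c).aroots Ω := by
    rw [Polynomial.mem_aroots]
    exact ⟨minpoly.ne_zero hci, hγ⟩
  obtain ⟨σ0, hσ0⟩ : ∃ σ0 : IntermediateField.adjoin ℚ ({c} : Set E) →ₐ[ℚ] Ω,
      σ0 (IntermediateField.AdjoinSimple.gen ℚ c) = γ :=
    ⟨(IntermediateField.algHomAdjoinIntegralEquiv ℚ hci).symm ⟨γ, hroot⟩,
      IntermediateField.algHomAdjoinIntegralEquiv_symm_apply_gen ℚ hci ⟨γ, hroot⟩⟩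
  letI : Algebra (IntermediateField.adjoin ℚ ({c} : Set E)) Ω := σ0.toRingHom.toAlgebra
  have hst : IsScalarTower ℚ (IntermediateField.adjoin ℚ ({c} : Set E)) Ω :=
    IsScalarTower.of_algebraMap_eq' σ0.comp_algebraMap.symm
  have halg : Algebra.IsAlgebraic ℚ (IntermediateField.adjoin ℚ ({c} : Set E)) :=
    IntermediateField.isAlgebraic_adjoin_simple hci
  have hu0 : IsTranscendenceBasis (IntermediateField.adjoin ℚ ({c} : Set E)) u :=
    (Algebra.IsAlgebraic.isTranscendenceBasis_iff ℚ _).mp hu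
  have hb0 : AlgebraicIndependent (IntermediateField.adjoin ℚ ({c} : Set E)) b :=
    (Algebra.IsAlgebraic.algebraicIndependent_iff ℚ _).mp hb
  obtain ⟨σ, hσ⟩ := K_EXT_aux _ E Ω d u hu0 b hb0
  refine ⟨σ.toRingHom, hσ, ?_⟩
  have h1 : σ (algebraMap (IntermediateField.adjoin ℚ ({c} : Set E)) E
      (IntermediateField.AdjoinSimple.gen ℚ c)) = σ0 (IntermediateField.AdjoinSimple.gen ℚ c) :=
    σ.commutes _
  rw [IntermediateField.AdjoinSimple.algebraMap_gen, hσ0] at h1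
  exact h1

end Pool.Agent.PR
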