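import Pool.Agent.helper5.PR.SpecK

/-!
Project pr (MP_a2a22c_al), module K-TB: finite transcendence bases of a finitely generated field.
-/

set_option autoImplicit false

namespace Pool.Agent.PR

open IntermediateField in
theorem K_TB_alg (E : Type) [Field E] [CharZero E] (t : Set E)
    (ht : IntermediateField.adjoin ℚ t = ⊤) : Algebra.IsAlgebraic (Algebra.adjoin ℚ t) E := by
  rw [← isAlgebraic_adjoin_iff_top, ht, Algebra.isAlgebraic_iff_isIntegral]
  exact Algebra.isIntegral_of_surjective topEquiv.surjective

/-- Module K-TB. -/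
theorem K_TB : K_TB_stmt := by
  intro E _ _ S hS
  constructor
  · have := K_TB_alg E (S : Set E) hS
    obtain ⟨t, hts, ht⟩ := exists_isTranscendenceBasis_subset (R := ℚ) (S : Set E)
    have hfin : t.Finite := S.finite_toSet.subset hts
    have : Fintype t := hfin.fintype
    let e : Fin (Fintype.card t) ≃ t := (Fintype.equivFin t).symm
    exact ⟨Fintype.card t, fun i => ((e i : t) : E), ht.comp_equiv e⟩
  · intro c hc
    have hS' : IntermediateField.adjoin ℚ (insert c (S : Set E)) = ⊤ := by
      rw [eq_top_iff, ← hS]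
      exact IntermediateField.adjoin.mono ℚ _ _ (Set.subset_insert c _)
    have := K_TB_alg E (insert c (S : Set E)) hS'
    have hind : AlgebraicIndepOn ℚ id ({c} : Set E) := by
      have h1 : AlgebraicIndependent ℚ (fun i : ({c} : Set E) => id (i : E)) :=
        algebraicIndependent_unique_type_iff.mpr hc
      exact h1
    obtain ⟨t, hct, hts, ht⟩ := exists_isTranscendenceBasis_between ({c} : Set E)
      (insert c (S : Set E)) (by simp) hind
    have hfin : t.Finite := (S.finite_toSet.insert c).subset hts
    have : Fintype t := hfin.fintype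
    have hcm : c ∈ t := hct rfl
    have hpos : 0 < Fintype.card t := Fintype.card_pos_iff.mpr ⟨⟨c, hcm⟩⟩
    obtain ⟨d, hd⟩ : ∃ d, Fintype.card t = d + 1 := ⟨Fintype.card t - 1, by omega⟩
    let e0 : Fin (d + 1) ≃ t := (Fintype.equivFinOfCardEq hd).symm
    let e : Fin (d + 1) ≃ t := (Equiv.swap 0 (e0.symm ⟨c, hcm⟩)).trans e0
    refine ⟨d, fun i => ((e i : t) : E), ht.comp_equiv e, ?_⟩
    change ((e0 (Equiv.swap 0 (e0.symm ⟨c, hcm⟩) 0) : t) : E) = c
    rw [Equiv.swap_apply_left, Equiv.apply_symm_apply]

end Pool.Agent.PR
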