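import Pool.Agent.helper5.PR.SpecY

set_option autoImplicit false

namespace Pool.Agent.PR

open Matrix Module

theorem Y_SPLIT_top {K V : Type} [Field K] [AddCommGroup V] [Module K V] [FiniteDimensional K V]
    (T : Module.End K V) (l : K) (h : T.maxGenEigenspace l = ⊤) :
    IsNilpotent (T - l • (1 : Module.End K V)) := by
  refine ⟨finrank K V, ?_⟩
  rw [Module.End.maxGenEigenspace_eq_genEigenspace_finrank] at h
  ext v
  have hv : v ∈ T.genEigenspace l (finrank K V) := by rw [h]; exact Submodule.mem_top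
  rw [Module.End.mem_genEigenspace_nat, LinearMap.mem_ker] at hv
  rw [hv]
  rfl

theorem Y_SPLIT (hFIT : N_FIT_stmt) : Y_SPLIT_stmt := by
  intro K V _ _ _ _ _ Q _ hQ ρ hρ x hx
  set T := ρ x with hT
  have hV : Nontrivial V := by
    by_contra hcon
    rw [not_nontrivial_iff_subsingleton] at hcon
    apply hx
    refine ⟨0, 1, ?_⟩
    ext v
    exact Subsingleton.elim _ _
  obtain ⟨l, hl⟩ := Module.End.exists_eigenvalue T
  have hinv : ∀ μ : K, InvS ρ (T.maxGenEigenspace μ) := fun μ => hFIT K V Q hQ ρ hρ x μ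
  have hind := Module.End.independent_maxGenEigenspace T
  have htop := Module.End.iSup_maxGenEigenspace_eq_top T
  refine ⟨T.maxGenEigenspace l, ⨆ μ, ⨆ (_ : μ ≠ l), T.maxGenEigenspace μ, ⟨hind l, ?_⟩, hinv l,
    ?_, ?_, ?_⟩
  · rw [codisjoint_iff, eq_top_iff, ← htop]
    apply iSup_le
    intro μ
    by_cases hμ : μ = l
    · rw [hμ]; exact le_sup_left
    · exact le_trans (le_iSup₂ (f := fun μ (_ : μ ≠ l) => T.maxGenEigenspace μ) μ hμ) le_sup_right
  · intro g w hw
    have hmap : (⨆ μ, ⨆ (_ : μ ≠ l), T.maxGenEigenspace μ).map (ρ g) ≤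
        ⨆ μ, ⨆ (_ : μ ≠ l), T.maxGenEigenspace μ := by
      simp only [Submodule.map_iSup]
      apply iSup₂_mono
      intro μ hμ
      rw [Submodule.map_le_iff_le_comap]
      intro v hv
      exact hinv μ g v hv
    exact hmap (Submodule.mem_map_of_mem hw)
  · intro h
    obtain ⟨v, hv⟩ := hl.exists_hasEigenvector
    have h1 : v ∈ T.maxGenEigenspace l := by
      rw [Module.End.mem_maxGenEigenspace]
      refine ⟨1, ?_⟩
      rw [pow_one, LinearMap.sub_apply, LinearMap.smul_apply, Module.End.one_apply,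
        hv.apply_eq_smul, sub_self]
    rw [h, Submodule.mem_bot] at h1
    exact hv.2 h1
  · intro h
    apply hx
    refine ⟨l, Y_SPLIT_top T l ?_⟩
    rw [eq_top_iff, ← htop]
    apply iSup_le
    intro μ
    by_cases hμ : μ = l
    · rw [hμ]
    · have h2 : T.maxGenEigenspace μ ≤ ⊥ := by
        rw [← h]
        exact le_iSup₂ (f := fun μ (_ : μ ≠ l) => T.maxGenEigenspace μ) μ hμ
      exact le_trans h2 bot_le

end Pool.Agent.PR
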